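import Pool.Agent.Q5.SH.Stm
import Pool.Agent.Q285.SG.EX

/-!
# Project SH of helper5: job BU
-/

set_option autoImplicit false
set_option linter.all false

namespace Pool.Agent.Q224.SH

open NumberField IsDedekindDomain Module
open Pool.Agent.Q5.SG Pool.Agent.Q5.SH Pool.Agent.Y18.LC
open Pool.Agent.Q285.SG (ps s_mul s_nat norm_p pinv_lt)

/-- **Job BU.**  The set of all embeddings is big. -/
theorem bu : Pool.Agent.Q5.SH.S_BU := by
  intro p _ K _ _ hun
  have hp0 : p ≠ 0 := (Fact.out : p.Prime).ne_zero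
  have hpK : (p : 𝓞 K) ≠ 0 := by exact_mod_cast hp0
  refine ⟨Ideal.span {(p : 𝓞 K)}, ?_, ?_⟩
  · intro a
    constructor
    · intro ha σ _
      obtain ⟨b, rfl⟩ := Ideal.mem_span_singleton'.1 ha
      rw [s_mul, norm_mul, s_nat, norm_p]
      calc ‖σ (b : K)‖ * (p : ℝ)⁻¹ ≤ 1 * (p : ℝ)⁻¹ :=
            mul_le_mul_of_nonneg_right (norm_int_le σ b) (by positivity)
        _ < 1 := by rw [one_mul]; exact pinv_lt
    · intro h
      have hrad : (Ideal.span {(p : 𝓞 K)}).radical = Ideal.span {(p : 𝓞 K)} := hun.radical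
      rw [← hrad, Ideal.radical_eq_sInf, Ideal.mem_sInf]
      rintro J ⟨hJ1, hJ2⟩
      have hpJ : (p : 𝓞 K) ∈ J := hJ1 (Ideal.mem_span_singleton_self _)
      have hJ0 : J ≠ ⊥ := by
        intro h0
        rw [h0, Submodule.mem_bot] at hpJ
        exact hpK hpJ
      obtain ⟨σ, hσ⟩ := ps p K ⟨J, hJ2, hJ0⟩ hpJ
      exact (hσ a).2 (h σ (Set.mem_univ _))
  · rw [Ideal.absNorm_span_natCast, RingOfIntegers.rank]
    refine Nat.pow_le_pow_right (Fact.out : p.Prime).pos ?_
    have h1 := InfinitePlace.card_add_two_mul_card_eq_rank K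
    have h2 := InfinitePlace.card_eq_nrRealPlaces_add_nrComplexPlaces (K := K)
    have h3 : 0 < Fintype.card (InfinitePlace K) := Fintype.card_pos
    unfold NumberField.Units.rank
    omega

end Pool.Agent.Q224.SH
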