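import Pool.Agent.Q5.SH.Stm
import Pool.Agent.Q150.SG.HX
import Pool.Agent.Q275.EX.Res
import Pool.Agent.Q106.AR.NmB

/-!
# Project SH of helper5: job HC
-/

set_option autoImplicit false
set_option linter.all false

namespace Pool.Agent.Q224.SH

open NumberField IsDedekindDomain Module
open Pool.Agent.Q5.SG Pool.Agent.Q5.SH Pool.Agent.Y18.LC
open Pool.Agent.Q92.AR (Dv prin Pr Ray RayD art nmD nu Cong Pos frob IsFrobenius Unramified SupF
  prin_mul prin_one prin_inv prin_div prinHom mem_Pr)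

section

variable {K : Type} [Field K] [NumberField K]

theorem prodNorm_ne_zero (T : Finset (HeightOneSpectrum (𝓞 K))) :
    (∏ t ∈ T, Ideal.absNorm t.asIdeal) ≠ 0 := by
  refine Finset.prod_ne_zero_iff.2 fun t _ => ?_
  rw [Ne, Ideal.absNorm_eq_zero_iff]
  exact t.ne_bot

theorem prodNorm_mem (T : Finset (HeightOneSpectrum (𝓞 K))) {t : HeightOneSpectrum (𝓞 K)}
    (ht : t ∈ T) (N : ℕ) : ((N * ∏ t ∈ T, Ideal.absNorm t.asIdeal : ℕ) : 𝓞 K) ∈ t.asIdeal := by
  classical
  rw [← Finset.mul_prod_erase T _ ht, Nat.cast_mul, Nat.cast_mul, mul_left_comm]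
  exact Ideal.mul_mem_right _ _ (Ideal.absNorm_mem _)

/-- near elements -/
theorem near (T : Finset (HeightOneSpectrum (𝓞 K))) {N : ℕ} (hN : N ≠ 0)
    (y : HeightOneSpectrum (𝓞 K) → Kˣ) : ∃ z : Kˣ,
    ∀ w : HeightOneSpectrum (𝓞 K), (N : 𝓞 K) ∈ w.asIdeal → z / y w ∈ OneAt w := by
  obtain ⟨z, hz⟩ := Pool.Agent.Q38.EX.approx (K := K) hN y
  refine ⟨z, fun w hw => ?_⟩
  have h1 := (hz w hw).trans_lt (Pool.Agent.Q38.EX.val_nat_lt_one hw)
  rw [mem_OneAt, Units.val_div_eq_div_val]
  exact h1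

/-- moving a divisor of an element which is a unit at `T` -/
theorem moveT (T : Finset (HeightOneSpectrum (𝓞 K))) {N : ℕ} (hN : N ≠ 0) (x : Kˣ)
    (hx : ∀ t ∈ T, x ∈ UnitAt t) :
    ∃ y : Kˣ, (∀ t ∈ T, y ∈ OneAt t) ∧ prin (x * y) ∈ Pr K N := by
  classical
  obtain ⟨z, hz⟩ := near T (mul_ne_zero hN (prodNorm_ne_zero T)) (fun w => if w ∈ T then 1 else x⁻¹)
  have h1 : ∀ t ∈ T, z ∈ OneAt t := by
    intro t ht
    have h2 := hz t (prodNorm_mem T ht N)
    rw [if_pos ht, div_one] at h2
    exact h2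
  refine ⟨z, h1, ?_⟩
  intro w hw
  refine Pool.Agent.Q125.AR.prin_eq_zero_of_valuation ?_
  have h3 : x * z ∈ UnitAt w := by
    by_cases ht : w ∈ T
    · exact (UnitAt w).mul_mem (hx w ht) (OneAt_le w (h1 w ht))
    · have h2 := hz w (by
        rw [Nat.cast_mul]
        exact Ideal.mul_mem_right _ _ hw)
      rw [if_neg ht, div_inv_eq_mul, mul_comm] at h2
      exact OneAt_le w h2
  exact h3

end

/-- **Job HC.** -/
theorem hc : Pool.Agent.Q5.SH.S_HC := by
  classical
  intro p _ K H _ _ _ _ _ _ m hm T χ hadm hT ψ hψ N' hN' hRam hart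
  have hp : p.Prime := Fact.out
  have hpow : ∀ g : H ≃ₐ[K] H, g ^ p ^ m = 1 := fun g =>
    Pool.Agent.Q150.SG.pow_eq_one hψ hN' (fun D hD => by rw [hart D hD, hadm.isX.tor D]) g
  have hP : IsPGroup p (H ≃ₐ[K] H) := fun g => ⟨m, hpow g⟩
  obtain ⟨m', hm'⟩ := IsPGroup.iff_card.1 hP
  have hcyc : IsCyclic (H ≃ₐ[K] H) :=
    isCyclic_of_injective_ringHom ((Units.coeHom ℂ).comp ψ) (Units.val_injective.comp hψ)
  obtain ⟨g, hg⟩ := hcyc.exists_generator
  have hord : orderOf g = p ^ m' := by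
    rw [orderOf_eq_card_of_forall_mem_zpowers hg, hm']
  have hle : m' ≤ m := by
    have h1 : p ^ m' ∣ p ^ m := by
      rw [← hord]
      exact orderOf_dvd_of_pow_eq_one (hpow g)
    exact (Nat.pow_dvd_pow_iff_le_right hp.one_lt).1 h1
  have hge : m ≤ m' := by
    by_contra hlt
    obtain ⟨v, hv⟩ := hT
    obtain ⟨u, hu, huw, hne⟩ := hadm.ram v hv
    apply hne
    have h1 : ∀ g : H ≃ₐ[K] H, g ^ p ^ (m - 1) = 1 := by
      intro g
      have h2 : g ^ p ^ m' = 1 := by
        rw [← hm']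
        exact pow_card_eq_one'
      obtain ⟨k, hk⟩ : p ^ m' ∣ p ^ (m - 1) := pow_dvd_pow p (by omega)
      rw [hk, pow_mul, h2, one_pow]
    obtain ⟨y, hy1, hy2⟩ := moveT T hN' u (by
      intro t ht
      by_cases htv : t = v
      · rw [htv]
        exact hu
      · exact OneAt_le t (huw t ht htv))
    have h3 := hart _ hy2
    rw [prin_mul, map_add, map_add, hadm.isX.ray y hy1, add_zero] at h3
    rw [← h3, ← map_add]
    exact Pool.Agent.Q150.SG.art_smul_eq_zero h1 _
  have hmm : m' = m := le_antisymm hle hge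
  subst hmm
  have hfin : finrank K H = p ^ m' := by rw [← hm', IsGalois.card_aut_eq_finrank]
  refine ⟨hfin, ?_, g, hg⟩
  -- the norms
  have hab : IsAbelianGalois K H := IsAbelianGalois.of_isCyclic K H
  intro j E hE D
  have hmul : finrank K E * finrank E H = finrank K H := finrank_mul_finrank K E H
  have hj : j ≤ m' := by
    have h1 : p ^ j ∣ p ^ m' := by
      rw [← hE, ← hfin]
      exact ⟨_, hmul.symm⟩
    exact (Nat.pow_dvd_pow_iff_le_right hp.one_lt).1 h1
  have hEH : finrank E H = p ^ (m' - j) := by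
    have h1 : p ^ j * finrank E H = p ^ j * p ^ (m' - j) := by
      rw [← pow_add, Nat.add_sub_cancel' hj, ← hfin, ← hE]
      exact hmul
    exact Nat.eq_of_mul_eq_mul_left (pow_pos hp.pos _) h1
  have hgal : IsGalois E H := IsGalois.tower_top_of_isGalois K E H
  have hpowE : ∀ h : H ≃ₐ[E] H, h ^ p ^ (m' - j) = 1 := by
    intro h
    rw [← hEH, ← IsGalois.card_aut_eq_finrank]
    exact pow_card_eq_one'
  -- divisors prime to `N'`
  have hPr : ∀ D ∈ Pr E N', p ^ (m' - j) • χ (nmD K E D) = 0 := by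
    intro D hD
    rw [← hart _ ((Pool.Agent.Q106.AR.nm K E).2.2.2.1 N' D hD),
      ← Pool.Agent.Q275.EX.res K E H ψ N' hN' hRam D hD]
    exact Pool.Agent.Q150.SG.art_smul_eq_zero hpowE _
  -- single primes
  have hsingle : ∀ w : HeightOneSpectrum (𝓞 E), p ^ (m' - j) • χ (nmD K E (Finsupp.single w 1)) = 0 := by
    intro w
    by_cases hwT : w.under (𝓞 K) ∈ T
    · rw [Pool.Agent.Q92.AR.nmD_single]
      have h1 : (Finsupp.single (w.under (𝓞 K)) ((Pool.Agent.Q5.BR.rdeg K w : ℤ) * 1) : Dv K) =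
          (Pool.Agent.Q5.BR.rdeg K w : ℤ) • Finsupp.single (w.under (𝓞 K)) 1 := by
        rw [Finsupp.smul_single, smul_eq_mul]
      rw [h1, map_zsmul, hadm.isX.zero _ hwT, zsmul_zero, smul_zero]
    · obtain ⟨π, hπ⟩ := w.valuation_exists_uniformizer E
      have hπ0 : π ≠ 0 := by
        rintro rfl
        rw [map_zero] at hπ
        exact WithZero.coe_ne_zero hπ.symm
      set N : ℕ := N' * ∏ t ∈ T, Ideal.absNorm t.asIdeal with hNdef
      have hN : N ≠ 0 := mul_ne_zero hN' (prodNorm_ne_zero T)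
      obtain ⟨c, hc⟩ := Pool.Agent.Q38.EX.approx (K := E) hN
        (fun w' => if w' = w then Units.mk0 π hπ0 else 1)
      have hc1 : ∀ w' : HeightOneSpectrum (𝓞 E), w' ≠ w → (N : 𝓞 E) ∈ w'.asIdeal →
          w'.valuation E ((c : E) - 1) ≤ w'.valuation E (N : E) := by
        intro w' hw' hNw'
        have h1 := hc w' hNw'
        rw [if_neg hw', Units.val_one, div_one] at h1
        exact h1
      have hNN : ∀ w' : HeightOneSpectrum (𝓞 E), (N' : 𝓞 E) ∈ w'.asIdeal → (N : 𝓞 E) ∈ w'.asIdeal := by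
        intro w' hw'
        rw [hNdef, Nat.cast_mul]
        exact Ideal.mul_mem_right _ _ hw'
      have hone : ∀ (w' : HeightOneSpectrum (𝓞 E)) (x : E), (N : 𝓞 E) ∈ w'.asIdeal →
          w'.valuation E (x - 1) ≤ w'.valuation E (N : E) → w'.valuation E x = 1 :=
        fun w' x hNw' hx => Pool.Agent.Q38.EX.near_one _ (Pool.Agent.Q38.EX.val_nat_lt_one hNw') hx
      -- the divisor of `c`
      have hD : (N' : 𝓞 E) ∈ w.asIdeal → Finsupp.single w 1 - prin c ∈ Pr E N' := by
        intro hN'w w' hw'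
        rw [Finsupp.sub_apply]
        by_cases h : w' = w
        · subst h
          have h1 := hc w' (hNN w' hN'w)
          rw [if_pos rfl, Units.val_mk0] at h1
          have h2 := hone w' _ (hNN w' hN'w) h1
          rw [map_div₀, hπ] at h2
          have h3 := Pool.Agent.Q125.AR.valuation_eq_exp c w'
          have h4 : w'.valuation E (c : E) = WithZero.exp (-1 : ℤ) := by
            rw [div_eq_one_iff_eq (by exact WithZero.coe_ne_zero)] at h2
            exact h2
          rw [h3] at h4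
          have h5 := WithZero.exp_injective h4
          rw [Finsupp.single_eq_same]
          omega
        · have h1 := hone w' _ (hNN w' hw') (hc1 w' h (hNN w' hw'))
          rw [Finsupp.single_eq_of_ne h, Pool.Agent.Q125.AR.prin_eq_zero_of_valuation h1, sub_zero]
      by_cases hN'w : (N' : 𝓞 E) ∈ w.asIdeal
      · have h1 := hPr _ (hD hN'w)
        have h2 : χ (nmD K E (prin c)) = 0 := by
          rw [(Pool.Agent.Q106.AR.nm K E).1 c]
          refine hadm.isX.ray _ fun t ht => ?_
          obtain ⟨w0, hw0⟩ := Pool.Agent.Q38.EX.exists_above (M := E) t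
          have hNt : (N : 𝓞 K) ∈ t.asIdeal := prodNorm_mem T ht N'
          have h3 := Pool.Agent.Q38.EX.norm_cong (N := N) t hNt c w0 hw0 (by
            intro w' hw'
            refine hc1 w' ?_ ?_
            · rintro rfl
              rw [hw'] at hwT
              exact hwT ht
            · rw [← Pool.Agent.Q125.AR.mem_under (F := K), hw']
              exact hNt)
          exact h3.trans_lt (Pool.Agent.Q38.EX.val_nat_lt_one hNt)
        rw [map_sub, map_sub, h2, sub_zero] at h1
        exact h1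
      · refine hPr _ ?_
        intro w' hw'
        rw [Finsupp.single_eq_of_ne]
        rintro rfl
        exact hN'w hw'
  induction D using Finsupp.induction_linear with
  | zero => rw [map_zero, map_zero, smul_zero]
  | add a b ha hb => rw [map_add, map_add, nsmul_add, ha, hb, add_zero]
  | single w k =>
    have h1 : (Finsupp.single w k : Dv E) = k • Finsupp.single w 1 := by
      rw [Finsupp.smul_single, smul_eq_mul, mul_one]
    rw [h1, map_zsmul, map_zsmul, ← natCast_zsmul, zsmul_comm, natCast_zsmul, hsingle, zsmul_zero]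

end Pool.Agent.Q224.SH
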