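import Pool.Agent.Q5.SH.Stm
import Pool.Agent.Q285.EX.Triv
import Pool.Agent.Q285.EX.Apx
import Pool.Agent.Q38.EX.NrmB

/-!
# Project SH of helper5: job HR
-/

set_option autoImplicit false
set_option linter.all false

namespace Pool.Agent.Q224.SH

open NumberField IsDedekindDomain Module
open Pool.Agent.Q5.SG Pool.Agent.Q5.SH Pool.Agent.Y18.LC
open Pool.Agent.Q92.AR (Dv prin Pr Ray RayD art nmD nu Cong Pos frob IsFrobenius Unramified SupF
  prin_mul prin_one prin_inv prin_div prinHom mem_Pr)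
open Pool.Agent.Q20.EX (Un CongAt TrivAt)

section

variable {K : Type} [Field K] [NumberField K]

theorem oneAt_of_cong {N : ℕ} {x : Kˣ} {v : HeightOneSpectrum (𝓞 K)} (hv : (N : 𝓞 K) ∈ v.asIdeal)
    (h : v.valuation K ((x : K) - 1) ≤ v.valuation K (N : K)) : x ∈ OneAt v :=
  lt_of_le_of_lt h (Pool.Agent.Q38.EX.val_nat_lt_one hv)

theorem val_one_of_oneAt {x : Kˣ} {v : HeightOneSpectrum (𝓞 K)} (h : x ∈ OneAt v) :
    v.valuation K (x : K) = 1 := OneAt_le v h

end

/-- **Job HR.** -/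
theorem hr : Pool.Agent.Q5.SH.S_HR := by
  classical
  intro p _ K H _ _ _ _ _ _ m hm T χ hadm ψ N' hN' hRam hart v hv hunr
  obtain ⟨u, hu, huw, hne⟩ := hadm.ram v hv
  set N : ℕ := N' * ∏ t ∈ T, Ideal.absNorm t.asIdeal with hNdef
  have hN : N ≠ 0 := by
    refine mul_ne_zero hN' (Finset.prod_ne_zero_iff.2 fun t _ => ?_)
    rw [Ne, Ideal.absNorm_eq_zero_iff]
    exact t.ne_bot
  have hNt : ∀ t ∈ T, (N : 𝓞 K) ∈ t.asIdeal := by
    intro t ht
    rw [hNdef, ← Finset.mul_prod_erase T _ ht, Nat.cast_mul, Nat.cast_mul, mul_left_comm]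
    exact Ideal.mul_mem_right _ _ (Ideal.absNorm_mem _)
  have hNN : ∀ w : HeightOneSpectrum (𝓞 K), (N' : 𝓞 K) ∈ w.asIdeal → (N : 𝓞 K) ∈ w.asIdeal := by
    intro w hw
    rw [hNdef, Nat.cast_mul]
    exact Ideal.mul_mem_right _ _ hw
  have hpr : ∀ x : Kˣ, (∀ w : HeightOneSpectrum (𝓞 K), (N' : 𝓞 K) ∈ w.asIdeal →
      w.valuation K (x : K) = 1) → prin x ∈ Pr K N' := by
    intro x hx w hw
    exact Pool.Agent.Q125.AR.prin_eq_zero_of_valuation (hx w hw)
  have hray : ∀ x ∈ Ray K N, art ψ (prin x) = 0 := by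
    rintro x ⟨hx1, hx2⟩
    rw [hart _ (hpr x fun w hw => val_one_of_oneAt (oneAt_of_cong (hNN w hw) (hx1 w (hNN w hw))))]
    exact hadm.isX.ray x fun w hw => oneAt_of_cong (hNt w hw) (hx1 w (hNt w hw))
  have hRamN : Pool.Agent.Q92.AR.Ram K H N := fun w hw => hNN w (hRam w hw)
  have htriv := Pool.Agent.Q285.EX.triv Pool.Agent.Q38.EX.nrm K H ψ N hN hRamN hray
  obtain ⟨z, hz, hz1, hz2⟩ := Pool.Agent.Q285.EX.approx_split hN {v} u (by
    intro w hw _
    rw [Set.mem_singleton_iff] at hw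
    rw [hw]
    exact hu)
  have hzv : u / z ∈ OneAt v := oneAt_of_cong (hNt v hv) (hz1 v rfl (hNt v hv))
  have hzw : ∀ w : HeightOneSpectrum (𝓞 K), w ≠ v → (N : 𝓞 K) ∈ w.asIdeal → z ∈ OneAt w :=
    fun w hw hNw => oneAt_of_cong hNw (hz2 w hw hNw)
  have hzun : Un N z := by
    intro w hNw
    by_cases hwv : w = v
    · subst hwv
      have h1 : z ∈ UnitAt w := by
        have h2 := (UnitAt w).div_mem hu (OneAt_le w hzv)
        rwa [div_div_cancel] at h2
      exact h1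
    · exact val_one_of_oneAt (hzw w hwv hNw)
  have h0 : art ψ (prin z) = 0 := by
    refine htriv z hzun hz ?_
    intro w hw hNw
    have hwv : w ≠ v := by
      rintro rfl
      exact hw hunr
    exact hz2 w hwv hNw
  have h1 : χ (prin z) = 0 := by
    rw [← hart _ (hpr z fun w hw => hzun w (hNN w hw))]
    exact h0
  have h2 : χ (prin (u / z)) = 0 := by
    refine hadm.isX.ray _ fun w hw => ?_
    by_cases hwv : w = v
    · rw [hwv]
      exact hzv
    · exact (OneAt w).div_mem (huw w hw hwv) (hzw w hwv (hNt w hw))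
  rw [prin_div, map_sub, h1, sub_zero] at h2
  apply hne
  rw [h2, smul_zero]

end Pool.Agent.Q224.SH
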