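import Pool.Agent.Q5.SH.Stm
import Pool.Agent.Q285.SG.EX
import Pool.Agent.Y944.LC.TA
import Pool.Agent.Y944.LC.TB
import Pool.Agent.Q25.SG.IntEmb

/-!
# Project SH of helper5: job LEO
-/

set_option autoImplicit false
set_option linter.all false

namespace Pool.Agent.Q224.SH

open NumberField IsDedekindDomain Module
open Pool.Agent.Q5.SG Pool.Agent.Q5.SH Pool.Agent.Y18.LC
open Pool.Agent.Q285.SG (ext_emb s_mul s_nat norm_p pinv_lt)

section

variable {p : ℕ} [Fact p.Prime] {K H : Type} [Field K] [NumberField K] [Field H] [NumberField H]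
  [Algebra K H]

theorem smulCU (S : Set (K →+* ℂ_[p])) (g : H ≃ₐ[K] H) {n : ℕ} {u : Hˣ} (hu : u ∈ CU S H n) :
    g • u ∈ CU S H n := by
  refine ⟨smul_EU g hu.1, fun σ hσ => ?_⟩
  have h0 : (σ.comp g.toRingEquiv.toRingHom).comp (algebraMap K H) = σ.comp (algebraMap K H) := by
    ext x
    simp
  have h1 := hu.2 (σ.comp g.toRingEquiv.toRingHom) (by rw [h0]; exact hσ)
  exact h1

/-- divisibility gives closeness -/
theorem CU_of_dvd (S : Set (K →+* ℂ_[p])) {M : ℕ} {u : (𝓞 H)ˣ} {x : Hˣ}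
    (hx : ((u : 𝓞 H) : H) = x) (h : (p : 𝓞 H) ^ M ∣ ((u : 𝓞 H) - 1)) : x ∈ CU S H M := by
  refine ⟨mem_EU.2 ⟨u, hx⟩, fun σ _ => ?_⟩
  obtain ⟨y, hy⟩ := h
  have h1 : (x : H) - 1 = (p : H) ^ M * (y : H) := by
    rw [← hx]
    have h2 := congrArg (fun t : 𝓞 H => algebraMap (𝓞 H) H t) hy
    simp only [map_sub, map_one, map_mul, map_pow, map_natCast] at h2
    exact h2
  have h3 : σ (x : H) - 1 = (p : ℂ_[p]) ^ M * σ (y : H) := by
    have h4 := congrArg σ h1
    rw [map_sub, map_one, map_mul, map_pow, map_natCast] at h4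
    exact h4
  rw [h3, norm_mul, norm_pow, norm_p]
  exact mul_le_of_le_one_right (by positivity) (norm_int_le σ y)

end

/-- **Job LEO.** -/
theorem leo : Pool.Agent.Q5.SH.S_LEO := by
  classical
  intro p _ hp2 K H _ _ _ _ _ _ hfin hunK hunH τ hτ htop hleo
  have hp : p.Prime := Fact.out
  have htopK : Top K p := by
    refine Pool.Agent.Y944.LC.ta K p ?_ hleo
    intro ζ hζ
    have h1 : Units.map (algebraMap (𝓞 K) K).toMonoidHom ζ = 1 := by
      refine eq_one_of_pow hp hp2 hunK 1 (mem_EU.2 ⟨ζ, rfl⟩) ?_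
      rw [pow_one, ← map_pow, hζ, map_one]
    apply Units.ext
    apply RingOfIntegers.ext
    have h2 := congrArg (fun t : Kˣ => (t : K)) h1
    exact h2
  refine Pool.Agent.Y944.LC.tb H p ?_
  intro s
  obtain ⟨M1, hM1⟩ := htopK (s + 1)
  obtain ⟨M2, hM2⟩ := htop (s + 1)
  refine ⟨max M1 M2, fun u hu => ?_⟩
  set U : Hˣ := Units.map (algebraMap (𝓞 H) H).toMonoidHom u with hU
  have hUu : ((u : 𝓞 H) : H) = U := rfl
  have hUC : U ∈ CU (Set.univ : Set (K →+* ℂ_[p])) H (max M1 M2) := CU_of_dvd _ hUu hu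
  have hcard : Fintype.card (H ≃ₐ[K] H) = p := by
    rw [← Nat.card_eq_fintype_card, IsGalois.card_aut_eq_finrank, hfin]
  have himg : Finset.image (fun i : ℕ => τ ^ i) (Finset.range p) = Finset.univ := by
    apply Finset.eq_univ_of_card
    rw [hcard, Finset.card_image_of_injOn, Finset.card_range]
    intro a ha b hb hab
    rw [Finset.coe_range, Set.mem_Iio] at ha hb
    exact pow_injOn_Iio_orderOf (by rw [hτ]; exact ha) (by rw [hτ]; exact hb) hab
  have hinj : Set.InjOn (fun i : ℕ => τ ^ i) (Finset.range p) := by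
    intro a ha b hb hab
    rw [Finset.coe_range, Set.mem_Iio] at ha hb
    exact pow_injOn_Iio_orderOf (by rw [hτ]; exact ha) (by rw [hτ]; exact hb) hab
  -- the norm
  set n : Hˣ := ∏ i ∈ Finset.range p, τ ^ i • U with hn
  have hnC : n ∈ CU (Set.univ : Set (K →+* ℂ_[p])) H (max M1 M2) :=
    Subgroup.prod_mem _ fun i _ => smulCU _ _ hUC
  set n0 : (𝓞 K)ˣ := Units.map (RingOfIntegers.norm K) u with hn0
  have hnn : algebraMap K H ((n0 : 𝓞 K) : K) = n := by
    have h1 : ((n0 : 𝓞 K) : K) = Algebra.norm K ((u : 𝓞 H) : H) := rfl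
    rw [h1, Algebra.norm_eq_prod_automorphisms, hn, ← himg, Finset.prod_image hinj,
      Units.coe_prod]
    rfl
  have hnfix : ∀ i : ℕ, τ ^ i • n = n := by
    intro i
    apply Units.ext
    rw [coe_smul', ← hnn, AlgEquiv.commutes]
  have hdvd : (p : 𝓞 K) ^ M1 ∣ ((n0 : 𝓞 K) - 1) := by
    refine Pool.Agent.Q25.SG.dvd_of_emb _ M1 fun σ => ?_
    obtain ⟨σ', hσ'⟩ := ext_emb (H := H) σ
    have h1 := (hnC.2.mono (le_max_left M1 M2)) σ' (Set.mem_univ _)
    rw [← hnn] at h1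
    have h2 : σ' (algebraMap K H ((n0 : 𝓞 K) : K)) = σ ((n0 : 𝓞 K) : K) := by
      rw [← hσ']
      rfl
    rw [h2] at h1
    have h3 : σ (((n0 : 𝓞 K) - 1 : 𝓞 K) : K) = σ ((n0 : 𝓞 K) : K) - 1 := by
      rw [RingOfIntegers.coe_eq_algebraMap, RingOfIntegers.coe_eq_algebraMap, map_sub, map_one,
        map_sub, map_one]
    rw [h3]
    exact h1
  obtain ⟨w, hw⟩ := hM1 n0 hdvd
  set W : Hˣ := Units.map (algebraMap K H).toMonoidHom
    (Units.map (algebraMap (𝓞 K) K).toMonoidHom w) with hW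
  have hWE : W ∈ EU H := by
    rw [mem_EU]
    exact ⟨Units.map (algebraMap (𝓞 K) (𝓞 H)).toMonoidHom w, rfl⟩
  have hWn : W ^ p ^ (s + 1) = n := by
    apply Units.ext
    rw [← hnn, ← hw, hW, ← map_pow, ← map_pow]
    rfl
  -- the relative unit
  have hx : U ^ p / n ∈ CU (Set.univ : Set (K →+* ℂ_[p])) H M2 := by
    have h1 := div_mem (pow_mem hUC p) hnC
    exact ⟨h1.1, h1.2.mono (le_max_right M1 M2)⟩
  have hx1 : ∏ i ∈ Finset.range p, τ ^ i • (U ^ p / n) = 1 := by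
    have h1 : ∀ i ∈ Finset.range p, τ ^ i • (U ^ p / n) = (τ ^ i • U) ^ p / n := by
      intro i _
      rw [smul_div', smul_pow', hnfix]
    rw [Finset.prod_congr rfl h1, Finset.prod_div_distrib, Finset.prod_pow, ← hn,
      Finset.prod_const, Finset.card_range, div_self']
  obtain ⟨y, hyE, hy⟩ := hM2 _ hx hx1
  have hfinal : U = (W * y) ^ p ^ s := by
    refine root_unique hp hp2 hunH 1 hUC.1 (pow_mem (mul_mem hWE hyE) _) ?_
    rw [pow_one, ← pow_mul, ← pow_succ, mul_pow, hWn, hy, mul_div_cancel]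
  obtain ⟨e, he⟩ := mem_EU.1 (mul_mem hWE hyE)
  refine ⟨e, ?_⟩
  apply Units.ext
  apply RingOfIntegers.ext
  have h1 := congrArg (fun t : Hˣ => (t : H)) hfinal
  simp only [Units.val_pow_eq_pow_val] at h1
  rw [← he, ← hUu] at h1
  rw [RingOfIntegers.coe_eq_algebraMap] at h1 ⊢
  rw [Units.val_pow_eq_pow_val, map_pow]
  exact h1.symm

end Pool.Agent.Q224.SH
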